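import Pool.Agent.Helper86.AN.Stmts

set_option autoImplicit false

/-!
# AN module RF (facts on kink data)
-/

namespace Pool.Agent.Helper68.AN

open Pool.Agent.Helper86.AN Finset

theorem rf_bool (P : Bool → Prop) (i : Bool) (h1 : P i) (h2 : P (!i)) : ∀ j, P j := by
  intro j
  cases i <;> cases j <;> simp_all

theorem rf_memAp {V : Type} [Fintype V] [DecidableEq V] (A : Finset V) (u : Bool → V) (v : V) :
    v ∈ Ap A u ↔ v ∈ A ∧ ∀ i, v ≠ u i := by
  unfold Ap
  rw [Finset.mem_erase, Finset.mem_erase]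
  constructor
  · rintro ⟨h1, h2, h3⟩
    refine ⟨h3, fun i => ?_⟩
    cases i
    · exact h2
    · exact h1
  · rintro ⟨h1, h2⟩
    exact ⟨h2 true, h2 false, h1⟩

theorem st_RF : ST_RF := by
  intro V _ _ s A m w u hK
  have hmem := rf_memAp A u
  have hsA : ∀ v, v ∈ A → s v ∈ A := fun v hv => (hK.sinv v).2 hv
  have htA : ∀ v, v ∈ A → s.symm v ∈ A := by
    intro v hv
    have h := hK.sinv (s.symm v)
    rw [Equiv.apply_symm_apply] at h
    exact h.1 hv
  have hs1 : ∀ v, v ∈ A → s v ≠ v := fun v hv => (hK.per v hv).1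
  have ht1 : ∀ v, v ∈ A → s.symm v ≠ v := by
    intro v hv h
    apply hs1 v hv
    rw [Equiv.symm_apply_eq] at h
    exact h.symm
  have hst : ∀ v, v ∈ A → s v ≠ s.symm v := by
    intro v hv h
    apply (hK.per v hv).2
    rw [h, Equiv.apply_symm_apply]
  have hnn : ∀ i, ¬ s.SameCycle (u i) (u (!i)) := by
    intro i
    cases i
    · exact hK.nsc
    · intro h
      exact hK.nsc h.symm
  have huu : ∀ i, u i ≠ u (!i) := by
    intro i h
    apply hnn i
    rw [← h]
  have hsu : ∀ i, s (u i) ∈ Ap A u := by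
    intro i
    rw [hmem]
    refine ⟨hsA _ (hK.uA i), rf_bool _ i (hs1 _ (hK.uA i)) ?_⟩
    intro h
    apply hnn i
    rw [← h]
    exact Equiv.Perm.sameCycle_apply_right.2 (Equiv.Perm.SameCycle.refl _ _)
  have htu : ∀ i, s.symm (u i) ∈ Ap A u := by
    intro i
    rw [hmem]
    refine ⟨htA _ (hK.uA i), rf_bool _ i (ht1 _ (hK.uA i)) ?_⟩
    intro h
    apply hnn i
    rw [← h]
    exact Equiv.Perm.sameCycle_symm_apply_right.2 (Equiv.Perm.SameCycle.refl _ _)
  have hr1 : ∀ v, w v = s v → rr s w v = s.symm v := by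
    intro v h
    unfold rr
    rw [if_pos h]
  have hr2 : ∀ v, v ∈ A → w v = s.symm v → rr s w v = s v := by
    intro v hv h
    unfold rr
    rw [if_neg]
    rw [h]
    exact fun h' => hst v hv h'.symm
  have hwA : ∀ v, v ∈ Ap A u → w v ∈ Ap A u := fun v hv => (hK.winv v hv).1
  have hww : ∀ v, v ∈ Ap A u → w (w v) = v := fun v hv => (hK.winv v hv).2.1
  refine ⟨?_, hmem, fun i => ⟨hsu i, htu i, hst _ (hK.uA i)⟩, huu, ?_, ?_, ?_, ?_, ?_⟩
  · intro v hv
    rw [hmem] at hv
    obtain ⟨hvA, hvu⟩ := hv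
    obtain ⟨h1, h2, h3⟩ := hK.minv v hvA
    refine ⟨?_, h2, h3⟩
    rw [hmem]
    refine ⟨h1, fun i h => ?_⟩
    apply hvu (!i)
    rw [← h2, h, hK.mu]
  · intro v hv
    have hvA := ((hmem v).1 hv).1
    rcases hK.tile v hv with h | h
    · rw [hr1 v h, h]
      exact ⟨htA v hvA, ht1 v hvA, fun h' => hst v hvA h'.symm⟩
    · rw [hr2 v hvA h, h]
      exact ⟨hsA v hvA, hs1 v hvA, hst v hvA⟩
  · intro v hv i
    have hvA := ((hmem v).1 hv).1
    have hwu : w v ≠ u i := ((hmem _).1 (hwA v hv)).2 i
    constructor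
    · intro h
      rcases hK.tile v hv with h' | h'
      · rw [hr1 v h'] at h
        left
        rw [← h, Equiv.apply_symm_apply]
      · rw [hr2 v hvA h'] at h
        right
        rw [← h, Equiv.symm_apply_apply]
    · rintro (h | h)
      · rcases hK.tile v hv with h' | h'
        · rw [hr1 v h', h, Equiv.symm_apply_apply]
        · exfalso
          apply hwu
          rw [h', h, Equiv.symm_apply_apply]
      · rcases hK.tile v hv with h' | h'
        · exfalso
          apply hwu
          rw [h', h, Equiv.apply_symm_apply]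
        · rw [hr2 v hvA h', h, Equiv.apply_symm_apply]
  · intro v hv hz
    have hvA := ((hmem v).1 hv).1
    rcases hK.tile v hv with h' | h'
    · rw [hr1 v h'] at hz ⊢
      have hzA := ((hmem _).1 hz).1
      rcases hK.tile _ hz with h2 | h2
      · exfalso
        rw [Equiv.apply_symm_apply] at h2
        have h3 := hww _ hz
        rw [h2, h'] at h3
        exact hst v hvA h3
      · rw [hr2 _ hzA h2, Equiv.apply_symm_apply]
    · rw [hr2 v hvA h'] at hz ⊢
      have hzA := ((hmem _).1 hz).1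
      rcases hK.tile _ hz with h2 | h2
      · rw [hr1 _ h2, Equiv.symm_apply_apply]
      · exfalso
        rw [Equiv.symm_apply_apply] at h2
        have h3 := hww _ hz
        rw [h2, h'] at h3
        exact hst v hvA h3.symm
  · intro v hv c b
    have hvA := ((hmem v).1 hv).1
    unfold inn
    rw [Finset.mem_filter]
    rcases hK.tile v hv with h' | h'
    · rw [hr1 v h', h']
      tauto
    · rw [hr2 v hvA h', h']
      tauto
  · intro i c b
    unfold inn
    rw [Finset.mem_filter]
    have := hK.uA i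
    tauto

end Pool.Agent.Helper68.AN
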